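import Pool.Agent.Z97H.DP.Fin

/-!
Directed polymers on `ℤ^d` (simple random walk, i.i.d. environment with exponential moments), any
dimension `d ≥ 1` and any inverse temperature: the end point fluctuates at least diffusively, and
the wandering exponent is at least `1/2`, in almost every direction.
The definitions (`polymer`, `logZ`, `wander`) are in `Pool/Agent/N662/SE/Exp.lean`, `dev` is in
`Pool/Agent/N662/SE/Up.lean`, and the walk and the energy (`Step`, `pos`, `energy`) are in
`Pool/Agent/TH967/DP/Defs.lean`.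
-/

set_option autoImplicit false

open MeasureTheory ProbabilityTheory Filter Topology

namespace Pool.Agent.Results.MP_7d29a1_pr.DiffusiveLowerBound

open Pool.Agent.N662.SE Pool.Agent.Z97H.DP

variable {d : ℕ}

/-- Let `d ≥ 1`, let `ω(i,y)` be i.i.d. with all exponential moments and let `β` be real.
(1) There is a convex `φ : ℝ^d → ℝ`, the limit of `(1/n) E log Z_n(h)`, such that for all `M` and
`η, δ > 0` there is `ε > 0` with the following property for every `n ≥ 1`: the set of the slopes
`v` with `‖v‖ ≤ M` for which there is a drift `h`, `‖h‖ ≤ M`, such that `v` is a subgradient of `φ`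
at `h` and `E P_n^h(‖S_n - n v‖ ≤ ε √n) ≥ η`, has outer Lebesgue measure at most `δ`.
(2) There is a Lebesgue null set `N` of slopes such that for all `v ∉ N` and all drifts `h`: for
every `η > 0` there is `ε > 0` with `E P_n^h(‖S_n - n v‖ ≤ ε √n) < η` for infinitely many `n`; and
the wandering exponent around the line of slope `v` is at least `1/2`. -/
theorem result (hd : 1 ≤ d) {Ω : Type} [MeasurableSpace Ω] (P : Measure Ω)
    [IsProbabilityMeasure P] (ω : ℕ → (Fin d → ℤ) → Ω → ℝ) (hmeas : ∀ i y, Measurable (ω i y))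
    (hindep : iIndepFun (fun s : ℕ × (Fin d → ℤ) => ω s.1 s.2) P)
    (hident : ∀ i y, IdentDistrib (ω i y) (ω 1 0) P P)
    (hexp : ∀ b : ℝ, Integrable (fun x => Real.exp (b * ω 1 0 x)) P) (β : ℝ) :
    (∃ φ : (Fin d → ℝ) → ℝ, ConvexOn ℝ Set.univ φ ∧
      (∀ h : Fin d → ℝ, Tendsto (fun n : ℕ =>
        (∫ x, logZ β h (fun i y => ω i y x) n ∂P) / (n : ℝ)) atTop (𝓝 (φ h))) ∧
      ∀ M η δ : ℝ, 0 < η → 0 < δ → ∃ ε : ℝ, 0 < ε ∧ ∀ n : ℕ, 1 ≤ n →
        volume {v : Fin d → ℝ | ‖v‖ ≤ M ∧ ∃ h : Fin d → ℝ, ‖h‖ ≤ M ∧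
          (∀ h', φ h + ∑ k, (h' k - h k) * v k ≤ φ h') ∧
          η ≤ ∫ x, polymer β h (fun i y => ω i y x) n
            {w | dev v w n ≤ ε * Real.sqrt n} ∂P} ≤ ENNReal.ofReal δ) ∧
    ∃ N : Set (Fin d → ℝ), volume N = 0 ∧ ∀ v : Fin d → ℝ, v ∉ N → ∀ h : Fin d → ℝ,
      (∀ η : ℝ, 0 < η → ∃ ε : ℝ, 0 < ε ∧ ∃ᶠ n : ℕ in atTop,
        ∫ x, polymer β h (fun i y => ω i y x) n {w | dev v w n ≤ ε * Real.sqrt n} ∂P < η) ∧
      1 / 2 ≤ wander P ω β h v := by
  have he : IsEnv P ω := ⟨hmeas, hindep, hident⟩
  obtain ⟨φ, C, hφ, hrt⟩ := rate d hd Ω P ω he hexp β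
  have hfr := fun h n => (hrt h n).1
  have hrate := fun h n => (hrt h n).2
  constructor
  · refine ⟨fun h => φ h - Real.log (2 * (d : ℝ)), hφ.sub (concaveOn_const _ convex_univ),
      fun h => ?_, ?_⟩
    · have hi : ∀ n : ℕ, Integrable (lw ω β h 0 0 n) P := fun n =>
        (conc d hd Ω P ω he hexp β h 0 0 n).2.1
      have e1 : Tendsto (fun n : ℕ => free P ω β h n / n) atTop (𝓝 (φ h)) := by
        have s1 : Tendsto (fun n : ℕ => φ h - |C| * (n : ℝ) ^ (-(1 / 4 : ℝ))) atTop
            (𝓝 (φ h - |C| * 0)) := by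
          apply Tendsto.sub tendsto_const_nhds
          apply Tendsto.const_mul
          exact (tendsto_rpow_neg_atTop (by norm_num)).comp tendsto_natCast_atTop_atTop
        rw [mul_zero, sub_zero] at s1
        apply tendsto_of_tendsto_of_tendsto_of_le_of_le' s1 tendsto_const_nhds
        · filter_upwards [Pool.Agent.N700.SE.UPD.ev_log 1 (1 / 4) one_pos (by norm_num),
            eventually_ge_atTop 1] with n h1 hn
          have hn0 : (0 : ℝ) < n := by exact_mod_cast hn
          rw [one_mul] at h1
          have hl : 0 ≤ Real.log ((n : ℝ) + 1) := Real.log_nonneg (by linarith)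
          have h2 : C * Real.sqrt n * Real.log (n + 1) ≤ n * (|C| * (n : ℝ) ^ (-(1 / 4 : ℝ))) := by
            calc C * Real.sqrt n * Real.log (n + 1) ≤ |C| * Real.sqrt n * Real.log (n + 1) := by
                  apply mul_le_mul_of_nonneg_right _ hl
                  exact mul_le_mul_of_nonneg_right (le_abs_self _) (Real.sqrt_nonneg _)
              _ ≤ |C| * Real.sqrt n * (n : ℝ) ^ (1 / 4 : ℝ) :=
                  mul_le_mul_of_nonneg_left h1 (by positivity)
              _ = n * (|C| * (n : ℝ) ^ (-(1 / 4 : ℝ))) := by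
                  rw [mul_assoc, Real.sqrt_eq_rpow, ← Real.rpow_add hn0, mul_left_comm]
                  congr 1
                  nth_rewrite 2 [← Real.rpow_one (n : ℝ)]
                  rw [← Real.rpow_add hn0]
                  norm_num
          have h3 := hrate h n
          rw [le_div_iff₀ hn0]
          linarith
        · filter_upwards [eventually_ge_atTop 1] with n hn
          have hn0 : (0 : ℝ) < n := by exact_mod_cast hn
          rw [div_le_iff₀ hn0]
          have := hfr h n
          linarith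
      refine (e1.sub_const (Real.log (2 * (d : ℝ)))).congr' ?_
      filter_upwards [eventually_ge_atTop 1] with n hn
      have hn0 : (n : ℝ) ≠ 0 := by
        have : (0 : ℝ) < n := by exact_mod_cast hn
        exact this.ne'
      rw [integral_logZ hd (hi n)]
      field_simp
    · intro M η δ hη hδ
      obtain ⟨ε, hε, hun⟩ := unif hd P ω he.meas β φ (max M 1) (le_max_right _ _) hη hδ
      refine ⟨ε, hε, fun n hn => le_trans (measure_mono ?_) (hun n hn)⟩
      rintro v ⟨h1, h, h2, h3, h4⟩
      refine ⟨h1.trans (le_max_left _ _), h, h2.trans (le_max_left _ _), fun h' => ?_, ?_⟩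
      · have := h3 h'
        linarith
      · refine h4.trans ?_
        simp_rw [polymer_eq]
        exact integral_prob_mono hd he.meas β h (dev_sub v _ n)
  · refine ⟨_, null hd P ω he hexp β hfr hrate, fun v hv h => ?_⟩
    have h1 : ∀ η : ℝ, 0 < η → ∃ ε : ℝ, 0 < ε ∧ ∃ᶠ n : ℕ in atTop,
        ∫ x, polymer β h (fun i y => ω i y x) n {w | dev v w n ≤ ε * Real.sqrt n} ∂P < η := by
      intro η hη
      by_contra hcon
      push Not at hcon
      apply hv
      refine ⟨h, η, hη, fun ε hε => ?_⟩
      filter_upwards [hcon ε hε] with n hn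
      refine hn.trans ?_
      simp_rw [polymer_eq]
      exact integral_prob_mono hd he.meas β h (dev_sub v _ n)
    refine ⟨h1, ?_⟩
    apply le_csInf ⟨2, two_mem hd ω β h v⟩
    rintro b ⟨hb0, hb⟩
    by_contra hcon
    push Not at hcon
    have h2 := conf_of_mem hd he.meas hb
    have h3 := Pool.Agent.N662.SD.ev_large (E := fun n : ℕ => {x | 1 / 2 ≤
      polymer β h (fun i y => ω i y x) n {w | ∀ i ≤ n, dev v w i ≤ (n : ℝ) ^ b}}) h2
    obtain ⟨ε, hε, hfreq⟩ := h1 (3 / 8) (by norm_num)
    have h4 := pow_dom' hcon (1 / ε)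
    obtain ⟨n, hn, hn3, hn4⟩ := (hfreq.and_eventually (h3.and h4)).exists
    have h5 : (n : ℝ) ^ b ≤ ε * Real.sqrt n := by
      rw [Real.sqrt_eq_rpow]
      calc (n : ℝ) ^ b = ε * (1 / ε * (n : ℝ) ^ b) := by field_simp
        _ ≤ _ := mul_le_mul_of_nonneg_left hn4 hε.le
    set E : Set Ω := {x | 1 / 2 ≤
      polymer β h (fun i y => ω i y x) n {w | ∀ i ≤ n, dev v w i ≤ (n : ℝ) ^ b}} with hE
    have hEm : MeasurableSet E := measurableSet_le measurable_const (measurable_polymer β h _ hmeas)
    have h6 : ∫ x, E.indicator (fun _ => (1 / 2 : ℝ)) x ∂P ≤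
        ∫ x, polymer β h (fun i y => ω i y x) n {w | dev v w n ≤ ε * Real.sqrt n} ∂P := by
      apply integral_mono_of_nonneg
      · exact Eventually.of_forall fun x => Set.indicator_nonneg (fun _ _ => by norm_num) _
      · apply (integrable_const (1 : ℝ)).mono' (measurable_polymer β h _ hmeas).aestronglyMeasurable
        refine Eventually.of_forall fun x => ?_
        rw [Real.norm_eq_abs, abs_of_nonneg (polymer_nonneg _ _ _ _ _)]
        exact polymer_le_one hd _ _ _ _ _
      · refine Eventually.of_forall fun x => ?_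
        by_cases hx : x ∈ E
        · show E.indicator (fun _ => (1 / 2 : ℝ)) x ≤
            polymer β h (fun i y => ω i y x) n {w | dev v w n ≤ ε * Real.sqrt n}
          rw [Set.indicator_of_mem hx]
          refine le_trans hx ?_
          rw [polymer_eq, polymer_eq]
          exact prob_mono _ _ _ fun w hw => (hw n le_rfl).trans h5
        · show E.indicator (fun _ => (1 / 2 : ℝ)) x ≤ _
          rw [Set.indicator_of_notMem hx]
          exact polymer_nonneg _ _ _ _ _
    rw [integral_indicator_const _ hEm, smul_eq_mul] at h6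
    linarith

end Pool.Agent.Results.MP_7d29a1_pr.DiffusiveLowerBound
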