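import Pool.Agent.Z97H.DP.QFin

/-!
Directed polymers on `ℤ^d` (simple random walk, i.i.d. environment with exponential moments), any
dimension `d ≥ 1` and any inverse temperature: averaged over the drift, the quenched variance
`E_n ‖S_n - E_n S_n‖²` of the end point is exactly of order `n`, and for almost every drift it is
at most `C n` for infinitely many `n`. So the superdiffusive behaviour expected in low dimension
comes from the fluctuations of the quenched mean `E_n S_n`.
The definitions of `qmean` and `qvar` are in `Pool/Agent/Z97H/DP/QVar.lean`, `weight` is in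
`Pool/Agent/N662/SE/Exp.lean`, and the walk and the energy (`Step`, `pos`, `energy`) are in
`Pool/Agent/TH967/DP/Defs.lean`.
-/

set_option autoImplicit false

open MeasureTheory ProbabilityTheory Filter Topology

namespace Pool.Agent.Results.MP_7d29a1_pr.QuenchedVariance

open Pool.Agent.N662.SE Pool.Agent.Z97H.DP

variable {d : ℕ}

/-- Let `d ≥ 1`, let `ω(i,y)` be i.i.d. with all exponential moments, let `β` be real, and let
`V_n(h)` be the mean over the environment of the quenched variance `E_n^h ‖S_n - E_n^h S_n‖²` of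
the end point of the polymer with drift `h`.
(1) For all `M > 0` and `n`, the integral of `V_n` over the drifts in `[-M, M]^d` is at most
`(2 M)^d d n / M`.
(2) There is `M₀` such that for all `M ≥ M₀` and `n` this integral is at least `n`.
(3) For Lebesgue almost every drift `h` there is `C` with `V_n(h) ≤ C n` for infinitely many
`n`. -/
theorem result (hd : 1 ≤ d) {Ω : Type} [MeasurableSpace Ω] (P : Measure Ω)
    [IsProbabilityMeasure P] (ω : ℕ → (Fin d → ℤ) → Ω → ℝ) (hmeas : ∀ i y, Measurable (ω i y))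
    (hindep : iIndepFun (fun s : ℕ × (Fin d → ℤ) => ω s.1 s.2) P)
    (hident : ∀ i y, IdentDistrib (ω i y) (ω 1 0) P P)
    (hexp : ∀ b : ℝ, Integrable (fun x => Real.exp (b * ω 1 0 x)) P) (β : ℝ) :
    (∀ M : ℝ, 0 < M → ∀ n : ℕ,
      ∫ h in Set.Icc (fun _ : Fin d => -M) (fun _ => M),
        ∫ x, qvar β h (fun i y => ω i y x) n ∂P ≤ (2 * M) ^ d * (d * n / M)) ∧
    (∃ M₀ : ℝ, 0 < M₀ ∧ ∀ M : ℝ, M₀ ≤ M → ∀ n : ℕ,
      (n : ℝ) ≤ ∫ h in Set.Icc (fun _ : Fin d => -M) (fun _ => M),
        ∫ x, qvar β h (fun i y => ω i y x) n ∂P) ∧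
    ∀ᵐ h : Fin d → ℝ, ∃ C : ℝ, ∃ᶠ n : ℕ in atTop,
      ∫ x, qvar β h (fun i y => ω i y x) n ∂P ≤ C * n :=
  ⟨fun _ hM n => box_le hd P hmeas β n hM,
    box_ge hd P ⟨hmeas, hindep, hident⟩ hexp β, ae_fin hd P hmeas β⟩

end Pool.Agent.Results.MP_7d29a1_pr.QuenchedVariance
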