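import Pool.Agent.N662.SE.All
import Pool.Agent.N523.SE.MGF

/-!
Directed polymers on `ℤ^d` (simple random walk, i.i.d. environment with exponential moments), any
dimension `d ≥ 1` and any inverse temperature: the inequality `2 ν - 1 ≤ χ'` and the bound
`ν ≤ 3/4`, with moderate deviations, for Lebesgue almost every drift, without any assumption on
the curvature of the limiting free energy. The definitions (`polymer`, `logZ`, `wander`,
`Concentrated`, `chiUp`) are in `Pool/Agent/N662/SE/Exp.lean`, `dev` is in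
`Pool/Agent/N662/SE/Up.lean`, and the walk and the energy are in `Pool/Agent/TH967/DP/Defs.lean`.
-/

set_option autoImplicit false

open MeasureTheory ProbabilityTheory Filter Topology

namespace Pool.Agent.Results.MP_7d29a1_pr.ScalingInequality

open Pool.Agent.N662.SE

variable {d : ℕ}

/-- Let `d ≥ 1`, let `ω(i,y)` be i.i.d. with all exponential moments and let `β` be real. For
Lebesgue almost every drift `h ∈ ℝ^d` there is a slope `v` such that:
(1) `2 ν - 1 ≤ χ' ≤ 1/2`, where `ν` is the wandering exponent of the polymer with drift `h` around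
the line of slope `v` and `χ'` the upper fluctuation exponent at `h`; in particular `ν ≤ 3/4`;
(2) if the free energy is concentrated on the scale `n^ξ` near `h`, `0 < ξ < 1` (and this is the
case for `ξ = 1/2`), then for all `(1 + ξ)/2 < b ≤ 1` and `c < 2 b - 1`, almost surely, for all
large `n` the polymer measure of `{‖S_i - i v‖ ≤ n^b for all i ≤ n}` is at least
`1 - exp (-n^c)`. -/
theorem result (hd : 1 ≤ d) {Ω : Type} [MeasurableSpace Ω] (P : Measure Ω)
    [IsProbabilityMeasure P] (ω : ℕ → (Fin d → ℤ) → Ω → ℝ) (hmeas : ∀ i y, Measurable (ω i y))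
    (hindep : iIndepFun (fun s : ℕ × (Fin d → ℤ) => ω s.1 s.2) P)
    (hident : ∀ i y, IdentDistrib (ω i y) (ω 1 0) P P)
    (hexp : ∀ b : ℝ, Integrable (fun x => Real.exp (b * ω 1 0 x)) P) (β : ℝ) :
    ∀ᵐ h : Fin d → ℝ, ∃ v : Fin d → ℝ,
      (2 * wander P ω β h v - 1 ≤ chiUp P ω β h ∧ chiUp P ω β h ≤ 1 / 2) ∧
      Concentrated P ω β h (1 / 2) ∧
      ∀ ξ : ℝ, 0 < ξ → ξ < 1 → Concentrated P ω β h ξ → ∀ b c : ℝ, (1 + ξ) / 2 < b → b ≤ 1 →
        c < 2 * b - 1 → ∀ᵐ x ∂P, ∀ᶠ n : ℕ in atTop,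
          1 - Real.exp (-(n : ℝ) ^ c) ≤ polymer β h (fun i y => ω i y x) n
            {w | ∀ i : ℕ, i ≤ n → dev v w i ≤ (n : ℝ) ^ b} := by
  filter_upwards [upper Pool.Agent.N523.SE.MGF.main hd P ω ⟨hmeas, hindep, hident⟩ hexp β]
    with h hh
  obtain ⟨v, h1, h2, h3, h4⟩ := hh
  exact ⟨v, ⟨h3, h4⟩, h2, h1⟩

end Pool.Agent.Results.MP_7d29a1_pr.ScalingInequality
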