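import Pool.Agent.Z97H.KZ.PW6

/-!
Directed polymers on `ℤ^d` (simple random walk, i.i.d. environment with exponential moments), any
dimension `d ≥ 1` and any inverse temperature: the scaling relation `χ = 2 ν - 1`.
The definitions: `logZ`, `weight`, `chi` are in `Pool/Agent/N662/SE/Exp.lean`, `dev` is in
`Pool/Agent/N662/SE/Up.lean`, `maxDev`, `polymerE`, `wanderP`, `flucUp` are in
`Pool/Agent/Z97H/KZ/Def.lean`, and the walk and the energy (`Step`, `pos`, `energy`) are in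
`Pool/Agent/TH967/DP/Defs.lean`.
-/

set_option autoImplicit false

open MeasureTheory ProbabilityTheory Filter Topology

namespace Pool.Agent.Results.MP_7d29a1_pr.ScalingRelation

open Pool.Agent.N662.SE Pool.Agent.Z97H.KZ

variable {d : ℕ}

/-- Let `d ≥ 1`, let `ω(i,y)` be i.i.d. with all exponential moments, let `β` be real and let
`φ(h)` be the limit of `(1/n) E log Z_n(h)`. For a drift `h` let `χ = chi` be the largest exponent
with `Var log Z_n ≥ n^(2χ)` for all large `n`, and `χ' = flucUp` the smallest exponent such that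
all the centred moments of `log Z_n` are of order at most `n^χ'`. For a drift `h` and a slope `v`
let `ν_p = wanderP` be the smallest exponent with `E E_n max_{i ≤ n} ‖S_i - i v‖^p ≤ C n^(pν_p)`.
(1) For Lebesgue almost every slope `v`, for all drifts `h` and all `p > 0`:
`χ' (χ - (2 ν_p - 1)) ≤ (6 + 8 χ' / p) (χ' - χ)`, and `χ ≤ 2 ν_p - 1` if `χ = χ'`.
(2) For Lebesgue almost every drift `h` there is a subgradient `v` of `φ` at `h` with
`2 ν_p - 1 ≤ χ'` for all `p > 0`. If moreover `φ` has positive lower curvature at `h` and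
`χ = χ'`, then `χ = 2 ν_p - 1` for all `p > 0`. -/
theorem result (hd : 1 ≤ d) {Ω : Type} [MeasurableSpace Ω] (P : Measure Ω)
    [IsProbabilityMeasure P] (ω : ℕ → (Fin d → ℤ) → Ω → ℝ) (hmeas : ∀ i y, Measurable (ω i y))
    (hindep : iIndepFun (fun s : ℕ × (Fin d → ℤ) => ω s.1 s.2) P)
    (hident : ∀ i y, IdentDistrib (ω i y) (ω 1 0) P P)
    (hexp : ∀ b : ℝ, Integrable (fun x => Real.exp (b * ω 1 0 x)) P) (β : ℝ) :
    ∃ φ : (Fin d → ℝ) → ℝ,
      (∀ h : Fin d → ℝ, Tendsto (fun n : ℕ =>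
        (∫ x, logZ β h (fun i y => ω i y x) n ∂P) / (n : ℝ)) atTop (𝓝 (φ h))) ∧
      (∀ᵐ v : Fin d → ℝ, ∀ (h : Fin d → ℝ) (p : ℝ), 0 < p →
        flucUp P ω β h * (chi P ω β h - (2 * wanderP P ω β p h v - 1)) ≤
          (6 + 8 * flucUp P ω β h / p) * (flucUp P ω β h - chi P ω β h) ∧
        (chi P ω β h = flucUp P ω β h → chi P ω β h ≤ 2 * wanderP P ω β p h v - 1)) ∧
      ∀ᵐ h : Fin d → ℝ, ∃ v : Fin d → ℝ,
        (∀ h' : Fin d → ℝ, φ h + ∑ k, (h' k - h k) * v k ≤ φ h') ∧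
        (∀ p : ℝ, 0 < p → 2 * wanderP P ω β p h v - 1 ≤ flucUp P ω β h) ∧
        ((∃ c r : ℝ, 0 < c ∧ 0 < r ∧ ∀ h' : Fin d → ℝ, ‖h' - h‖ ≤ r →
          φ h + ∑ k, (h' k - h k) * v k + c * ‖h' - h‖ ^ 2 ≤ φ h') →
          chi P ω β h = flucUp P ω β h →
          ∀ p : ℝ, 0 < p → chi P ω β h = 2 * wanderP P ω β p h v - 1) :=
  scaling_relation hd P ω ⟨hmeas, hindep, hident⟩ hexp β

end Pool.Agent.Results.MP_7d29a1_pr.ScalingRelation
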